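import Pool.Agent.Lib.MP_606be1_nt.FM.Main

/-! The formula, taken as a hypothesis, gives the former hand-in Criterion. -/

namespace Pool.Agent.Lib.MP_606be1_nt.FM

open Real Set Filter Asymptotics

variable {α β : ℝ} (hα : 1 < α) (hβ : 1 < β)
include hα hβ

lemma D_sub (hi : Irrational (log α / log β)) {x : ℝ} (hx : 1 ≤ x) :
    D α β x ⊆ J α β (4 / log β * x) ∪ ↑(Finset.range (⌊log (2 * x) / log α⌋₊ + 1)) := by
  intro j hj
  have hb := log_pos hβ
  rcases le_total (α ^ q α β j) (2 * x) with hn | hn
  · right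
    have := (pow_le_iff hα (by linarith) _).1 hn
    have := le_q hi j
    simp only [Finset.coe_range, mem_Iio]
    omega
  · left
    have h1 := approx_of_mem hα hβ ((mem_D hα hβ hi).1 hj) hn
    rw [q_cast' hi, pp_cast' hα hβ hi, abs_err hi] at h1
    have h3 := le_E hi j
    rw [← q_cast' hi] at h3
    have hq : (0 : ℝ) < q α β (j + 1) := by exact_mod_cast Rat.den_pos _
    have e2 : 0 < α ^ q α β j := by positivity
    change α ^ q α β j ≤ _
    rw [div_mul_eq_mul_div, div_mul_eq_mul_div, le_div_iff₀ hb]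
    have e3 : α ^ q α β j * log β * 1 ≤
        α ^ q α β j * log β * (2 * (q α β (j + 1) * E (log α / log β) j)) := by gcongr
    have e4 : α ^ q α β j / 2 * (log β * E (log α / log β) j) * q α β (j + 1) ≤
        x * q α β (j + 1) := by gcongr
    linarith

omit hα hβ in
/-- back from the one-clause form -/
theorem two_of_one (F : ∃ C : ℝ, ∀ᶠ x in atTop, ∃ k : ℕ,
      (T α β x).encard = (D α β x).encard + k ∧
        |(k : ℝ) - log x ^ 2 / (log α * log β)| ≤ C * log x) :
    ∃ C : ℝ, ∀ᶠ x in atTop, ((T α β x).Finite ↔ (D α β x).Finite) ∧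
      ((T α β x).Finite → |((T α β x).ncard : ℝ) - (D α β x).ncard - log x ^ 2 / (log α * log β)|
        ≤ C * log x) := by
  obtain ⟨C, hC⟩ := F
  refine ⟨C, hC.mono fun x ⟨k, h1, h2⟩ => ?_⟩
  have h : (T α β x).Finite ↔ (D α β x).Finite := by
    rw [← encard_lt_top_iff, ← encard_lt_top_iff, h1, ENat.add_lt_top]
    simp
  refine ⟨h, fun hT => ?_⟩
  rw [← hT.cast_ncard_eq, ← (h.1 hT).cast_ncard_eq] at h1
  have h3 : (T α β x).ncard = (D α β x).ncard + k := by exact_mod_cast h1
  rw [h3]
  simpa using h2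

theorem criterion_of_formula
    (F : ∃ C : ℝ, ∀ᶠ x in atTop, ((T α β x).Finite ↔ (D α β x).Finite) ∧
      ((T α β x).Finite → |((T α β x).ncard : ℝ) - (D α β x).ncard - log x ^ 2 / (log α * log β)|
        ≤ C * log x)) :
    IsEquivalent atTop (fun x : ℝ => ((T α β x).ncard : ℝ))
      (fun x => log x ^ 2 / (log α * log β)) ↔
    (∀ x, (J α β x).Finite) ∧
      (fun x => ((J α β x).ncard : ℝ)) =o[atTop] fun x => log x ^ 2 := by
  obtain ⟨C, hC⟩ := F
  have ha := log_pos hα
  have hb := log_pos hβ
  have hc : 0 < β * log β := by positivity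
  have hO : (fun x : ℝ => log x ^ 2 / (log α * log β)) =O[atTop] fun x => log x ^ 2 := by
    simpa [div_eq_inv_mul] using
      (isBigO_refl (fun x : ℝ => log x ^ 2) atTop).const_mul_left (log α * log β)⁻¹
  have hO' : (fun x : ℝ => log x ^ 2) =O[atTop] fun x => log x ^ 2 / (log α * log β) := by
    simpa [div_eq_inv_mul] using
      (isBigO_refl (fun x : ℝ => log x ^ 2) atTop).const_mul_right
        (c := (log α * log β)⁻¹) (by positivity)
  constructor
  · intro h
    have hT := finite_of_equiv hα hβ h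
    have hi : Irrational (log α / log β) := by
      by_contra hi
      exact T_infinite_of_rat hα hβ hi le_rfl (hT 0)
    refine ⟨fun x => J_finite hα hβ hi (hT _), ?_⟩
    have h1 := (h.isLittleO.trans_isBigO hO).add (lin_isLittleO C 0)
    have h2 : (fun x => ((J α β (x / (β * log β))).ncard : ℝ)) =o[atTop] fun x => log x ^ 2 := by
      refine IsBigO.trans_isLittleO (IsBigO.of_bound 1 ?_) h1
      filter_upwards [hC] with x hx
      have e0 : (J α β (x / (β * log β))).ncard ≤ (D α β x).ncard :=
        ncard_le_ncard (fun j hj => (mem_D hα hβ hi).2 (by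
          simpa only [div_mul_cancel₀ _ hc.ne'] using conv_mem hα hβ hi hj)) (hx.1.1 (hT x))
      have e1 : ((J α β (x / (β * log β))).ncard : ℝ) ≤ (D α β x).ncard := by exact_mod_cast e0
      rw [Real.norm_natCast, one_mul, Real.norm_eq_abs]
      refine le_trans ?_ (le_abs_self _)
      simp only [Pi.sub_apply]
      linarith [(abs_le.1 (hx.2 (hT x))).1]
    refine (scale_isLittleO h2 hc).congr_left fun x => ?_
    rw [mul_div_cancel_left₀ _ hc.ne']
  · rintro ⟨hJ, hJ'⟩
    have hi : Irrational (log α / log β) := by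
      by_contra hi
      obtain ⟨x, hx⟩ := J_infinite_of_rat hα hi
      exact hx (hJ x)
    refine IsLittleO.trans_isBigO ?_ hO'
    have h1 := ((scale_isLittleO hJ' (c := 4 / log β) (by positivity)).add
      (lin_isLittleO (1 / log α) (log 2 / log α + 1))).add (lin_isLittleO C 0)
    refine IsBigO.trans_isLittleO (IsBigO.of_bound 1 ?_) h1
    filter_upwards [hC, eventually_ge_atTop 1] with x hx hx1
    have hf := (hJ (4 / log β * x)).union
      (Finset.range (⌊log (2 * x) / log α⌋₊ + 1)).finite_toSet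
    have hD := hf.subset (D_sub hα hβ hi hx1)
    have e0 := (ncard_le_ncard (D_sub hα hβ hi hx1) hf).trans (ncard_union_le _ _)
    rw [ncard_coe_finset, Finset.card_range] at e0
    have e1 : ((D α β x).ncard : ℝ) ≤
        (J α β (4 / log β * x)).ncard + (⌊log (2 * x) / log α⌋₊ + 1) := by exact_mod_cast e0
    have e2 := Nat.floor_le (div_nonneg (log_nonneg (show 1 ≤ 2 * x by linarith)) ha.le)
    have e3 : log (2 * x) / log α = 1 / log α * log x + log 2 / log α := by
      rw [log_mul (by norm_num) (by linarith)]; ring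
    have e4 := abs_le.1 (hx.2 (hx.1.2 hD))
    have e5 : (0 : ℝ) ≤ (D α β x).ncard := Nat.cast_nonneg _
    rw [one_mul, Real.norm_eq_abs, Real.norm_eq_abs]
    refine le_trans (abs_le.2 ⟨?_, ?_⟩) (le_abs_self _) <;> simp only [Pi.sub_apply] <;>
      linarith [e4.1, e4.2]

/-- the criterion in terms of the convergents that are solutions -/
theorem iff_of_formula
    (F : ∃ C : ℝ, ∀ᶠ x in atTop, ((T α β x).Finite ↔ (D α β x).Finite) ∧
      ((T α β x).Finite → |((T α β x).ncard : ℝ) - (D α β x).ncard - log x ^ 2 / (log α * log β)|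
        ≤ C * log x)) :
    IsEquivalent atTop (fun x : ℝ => ((T α β x).ncard : ℝ))
      (fun x => log x ^ 2 / (log α * log β)) ↔
    (∀ x, (D α β x).Finite) ∧
      (fun x => ((D α β x).ncard : ℝ)) =o[atTop] fun x => log x ^ 2 := by
  obtain ⟨C, hC⟩ := F
  have ha := log_pos hα
  have hb := log_pos hβ
  have hO : (fun x : ℝ => log x ^ 2 / (log α * log β)) =O[atTop] fun x => log x ^ 2 := by
    simpa [div_eq_inv_mul] using
      (isBigO_refl (fun x : ℝ => log x ^ 2) atTop).const_mul_left (log α * log β)⁻¹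
  have hO' : (fun x : ℝ => log x ^ 2) =O[atTop] fun x => log x ^ 2 / (log α * log β) := by
    simpa [div_eq_inv_mul] using
      (isBigO_refl (fun x : ℝ => log x ^ 2) atTop).const_mul_right
        (c := (log α * log β)⁻¹) (by positivity)
  have key : (∀ᶠ x in atTop, (T α β x).Finite) → (fun x => ((T α β x).ncard : ℝ) -
      (D α β x).ncard - log x ^ 2 / (log α * log β)) =o[atTop] fun x => log x ^ 2 := fun h => by
    refine IsBigO.trans_isLittleO (IsBigO.of_bound 1 ?_) (lin_isLittleO C 0)
    filter_upwards [hC, h] with x hx hT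
    rw [one_mul, Real.norm_eq_abs, Real.norm_eq_abs, add_zero]
    exact (hx.2 hT).trans (le_abs_self _)
  constructor
  · intro h
    have hT := finite_of_equiv hα hβ h
    refine ⟨fun x => ?_, ?_⟩
    · obtain ⟨y, hy, hxy⟩ := (hC.and (eventually_ge_atTop x)).exists
      exact (hy.1.1 (hT y)).subset fun j hj => le_trans hj hxy
    · refine ((h.isLittleO.trans_isBigO hO).sub (key (.of_forall hT))).congr_left fun x => ?_
      simp only [Pi.sub_apply]
      ring
  · rintro ⟨hD, hD'⟩
    refine IsLittleO.trans_isBigO ?_ hO'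
    refine ((key (hC.mono fun x hx => hx.1.2 (hD x))).add hD').congr_left fun x => ?_
    simp only [Pi.sub_apply]
    ring

end Pool.Agent.Lib.MP_606be1_nt.FM
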