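import Pool.Agent.Lib.MP_606be1_nt.Crit

/-! The count up to `O(log x)`: main term plus the number of convergents that are solutions. -/

namespace Pool.Agent.Lib.MP_606be1_nt.FM

open Real Set Filter

/-- indices of the convergents that are solutions -/
def D (α β x : ℝ) : Set ℕ :=
  {j | |α ^ ((log α / log β).convergent j).den - β ^ ((log α / log β).convergent j).num| ≤ x}

variable {α β : ℝ} (hα : 1 < α) (hβ : 1 < β)
include hα hβ

lemma mem_D (hi : Irrational (log α / log β)) {x : ℝ} {j : ℕ} :
    j ∈ D α β x ↔ (q α β j, pp α β j) ∈ T α β x := by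
  have h : ((log α / log β).convergent j).num = pp α β j := by
    rw [pp_cast hα hβ hi, convergent_eq j _ hi]
    exact Rat.num_div_eq_of_coprime (by linarith [one_le_Q hi j])
      (Int.isCoprime_iff_gcd_eq_one.1 (coprime_PQ _ j))
  rw [D, mem_ofPred_eq, h, zpow_natCast]
  rfl

lemma D_finite (hi : Irrational (log α / log β)) {x : ℝ} (hT : (T α β x).Finite) :
    (D α β x).Finite := by
  have : (D α β x ∩ Ici 1).Finite := by
    refine Finite.of_finite_image (f := fun j => (q α β j, pp α β j)) (hT.subset ?_) ?_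
    · rintro _ ⟨j, hj, rfl⟩
      exact (mem_D hα hβ hi).1 hj.1
    · intro i hi' j hj hij
      exact q_injOn hi hi'.2 hj.2 (congrArg Prod.fst hij)
  refine (this.union (finite_singleton 0)).subset fun j hj => ?_
  rcases Nat.eq_zero_or_pos j with h | h
  · right; exact h
  · left; exact ⟨hj, h⟩

lemma D_infinite_of_rat (hi : ¬ Irrational (log α / log β)) {x : ℝ} (hx : 0 ≤ x) :
    (D α β x).Infinite := by
  have hb := log_pos hβ
  obtain ⟨r, hr⟩ : ∃ r : ℚ, (r : ℝ) = log α / log β := by simpa [Irrational] using hi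
  obtain ⟨N, hN⟩ := convergent_rat r.den r le_rfl
  refine (Set.Ici_infinite N).mono fun j hj => ?_
  have key : α ^ r.den = β ^ r.num := by
    have e3 : (r.den : ℝ) ≠ 0 := by exact_mod_cast r.den_ne_zero
    rw [Rat.cast_def r, div_eq_div_iff e3 hb.ne'] at hr
    rw [pow_eq_exp hα, ← rpow_intCast, rpow_def_of_pos (by linarith)]
    congr 1
    linarith
  rw [D, mem_ofPred_eq, ← hr, hN j hj, key]
  simpa using hx

lemma lowerD (hi : Irrational (log α / log β)) {x : ℝ} (hx : 1 ≤ x) (hT : (T α β x).Finite) :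
    log x ^ 2 / (log α * log β) + (D α β x).ncard - (log x / log α + 1) ≤ (T α β x).ncard := by
  classical
  have ha := log_pos hα
  have hb := log_pos hβ
  have hL := log_nonneg hx
  have hJ := D_finite hα hβ hi hT
  set N := ⌊log x / log α⌋₊ + 1 with hN
  set M := ⌊log x / log β⌋₊ + 1 with hM
  set S := hJ.toFinset \ Finset.range N with hS
  set f : ℕ → ℕ × ℕ := fun j => (q α β j, pp α β j) with hf
  have hsub : ((Finset.range N ×ˢ Finset.range M ∪ S.image f : Finset (ℕ × ℕ)) : Set (ℕ × ℕ))
      ⊆ T α β x := by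
    intro p hp
    simp only [Finset.coe_union, Finset.coe_product, Finset.coe_range, Finset.coe_image, mem_union,
      mem_prod, mem_Iio, mem_image, Finset.mem_coe] at hp
    rcases hp with ⟨h1, h2⟩ | ⟨j, hj, rfl⟩
    · have h1 := (pow_le_iff hα hx _).2 h1
      have h2 := (pow_le_iff hβ hx _).2 h2
      have h3 : 0 < α ^ p.1 := by positivity
      have h4 : 0 < β ^ p.2 := by positivity
      change |α ^ p.1 - β ^ p.2| ≤ x
      exact abs_le.2 ⟨by linarith, by linarith⟩
    · exact (mem_D hα hβ hi).1 (by simpa using (Finset.mem_sdiff.1 hj).1)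
  have hdisj : Disjoint (Finset.range N ×ˢ Finset.range M) (S.image f) := by
    rw [Finset.disjoint_left]
    intro p hp hp'
    obtain ⟨j, hj, rfl⟩ := Finset.mem_image.1 hp'
    have h1 : ¬ j < N := by simpa using (Finset.mem_sdiff.1 hj).2
    have h2 : q α β j < N := by simpa using (Finset.mem_product.1 hp).1
    have := le_q hi j
    omega
  have hinj : (S.image f).card = S.card := by
    refine Finset.card_image_of_injOn fun i hi' j hj hij => ?_
    have h1 : ¬ i < N := by simpa using (Finset.mem_sdiff.1 hi').2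
    have h2 : ¬ j < N := by simpa using (Finset.mem_sdiff.1 hj).2
    exact q_injOn hi (show 1 ≤ i by omega) (show 1 ≤ j by omega) (congrArg Prod.fst hij)
  have h1 := ncard_le_ncard hsub hT
  rw [ncard_coe_finset, Finset.card_union_of_disjoint hdisj, Finset.card_product,
    Finset.card_range, Finset.card_range, hinj] at h1
  have h2 : hJ.toFinset.card ≤ S.card + N := by
    have := Finset.le_card_sdiff (Finset.range N) hJ.toFinset
    rw [Finset.card_range, ← hS] at this
    omega
  rw [← ncard_eq_toFinset_card _ hJ] at h2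
  have h3 : log x / log α ≤ N := by
    rw [hN]; push_cast; exact (Nat.lt_floor_add_one _).le
  have h4 : log x / log β ≤ M := by
    rw [hM]; push_cast; exact (Nat.lt_floor_add_one _).le
  have h5 : (N : ℝ) ≤ log x / log α + 1 := by
    rw [hN]; push_cast; linarith [Nat.floor_le (div_nonneg hL ha.le)]
  have h6 : log x ^ 2 / (log α * log β) ≤ N * M := by
    calc _ = log x / log α * (log x / log β) := by field_simp
      _ ≤ _ := by gcongr
  have h1' : (N : ℝ) * M + S.card ≤ (T α β x).ncard := by exact_mod_cast h1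
  have h2' : ((D α β x).ncard : ℝ) ≤ S.card + N := by exact_mod_cast h2
  linarith

lemma upperD (hi : Irrational (log α / log β)) (hJ : (J α β 1).Finite) :
    ∃ C : ℝ, 0 ≤ C ∧ ∀ x, 1 ≤ x → (D α β x).Finite → (T α β x).Finite ∧ ((T α β x).ncard : ℝ) ≤
      (log (2 * x) / log α + 1) * (log (3 * x) / log β + 1)
        + (2 / log α * (log x + C) + 1) * (2 / log β + 1) + (D α β x).ncard := by
  classical
  have ha := log_pos hα
  have hb := log_pos hβ
  obtain ⟨C, hC0, hC⟩ := large hα hβ hi hJ
  refine ⟨C, hC0, fun x hx hD => ?_⟩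
  have hL := log_nonneg hx
  set N := ⌊log (2 * x) / log α⌋₊ + 1 with hN
  set M := ⌊log (3 * x) / log β⌋₊ + 1 with hM
  set N' := ⌊2 / log α * (log x + C)⌋₊ + 1 with hN'
  set K := ⌊2 / log β⌋₊ + 1 with hK
  set ξ := log α / log β with hξ
  set g : ℕ × ℕ → ℕ × ℕ := fun p => (p.1, ⌈p.1 * ξ - 1 / log β⌉₊ + p.2) with hg
  set f : ℕ → ℕ × ℕ := fun j => (q α β j, pp α β j) with hf
  set S := hD.toFinset with hS
  have hsub : T α β x ⊆ ((Finset.range N ×ˢ Finset.range M ∪
      (Finset.range N' ×ˢ Finset.range K).image g ∪ S.image f : Finset (ℕ × ℕ)) : Set (ℕ × ℕ)) := by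
    rintro ⟨n, m⟩ h
    simp only [Finset.coe_union, Finset.coe_product, Finset.coe_range, Finset.coe_image, mem_union,
      mem_prod, mem_Iio, mem_image, Finset.mem_coe]
    have h' : |α ^ n - β ^ m| ≤ x := h
    rcases le_total (α ^ n) (2 * x) with hn | hn
    · left; left
      exact ⟨(pow_le_iff hα (by linarith) _).1 hn,
        (pow_le_iff hβ (by linarith) _).1 (by linarith [(abs_le.1 h').1])⟩
    rcases lt_or_ge (2 / log α * (log x + C)) n with hn' | hn'
    · right
      obtain ⟨j, -, rfl, rfl⟩ := hC x hx n m h hn hn'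
      exact ⟨j, by simpa [hS] using (mem_D hα hβ hi).2 h, rfl⟩
    · left; right
      have h1 := approx_of_mem hα hβ h hn
      have h2 : |(n : ℝ) * ξ - m| ≤ 1 / log β := by
        rw [le_div_iff₀ hb]
        have e0 : 0 ≤ log β * |(n : ℝ) * ξ - m| := by positivity
        have e1 : x * (log β * |(n : ℝ) * ξ - m|) ≤ α ^ n / 2 * (log β * |(n : ℝ) * ξ - m|) := by
          gcongr; linarith
        nlinarith
      obtain ⟨h3, h4⟩ := abs_le.1 h2
      have h5 : ⌈n * ξ - 1 / log β⌉₊ ≤ m := Nat.ceil_le.2 (by linarith)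
      refine ⟨(n, m - ⌈n * ξ - 1 / log β⌉₊), ⟨?_, ?_⟩, ?_⟩
      · exact Nat.lt_succ_of_le (Nat.le_floor hn')
      · refine Nat.lt_succ_of_le (Nat.le_floor ?_)
        have := Nat.le_ceil (n * ξ - 1 / log β)
        rw [Nat.cast_sub h5]
        have e : 2 / log β = 2 * (1 / log β) := by ring
        linarith
      · simp only [hg, Prod.mk.injEq, true_and]
        omega
  refine ⟨(Finset.finite_toSet _).subset hsub, ?_⟩
  have h1 := ncard_le_ncard hsub (Finset.finite_toSet _)
  rw [ncard_coe_finset] at h1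
  have h2 : (T α β x).ncard ≤ N * M + N' * K + S.card := by
    refine h1.trans ((Finset.card_union_le _ _).trans (add_le_add
      ((Finset.card_union_le _ _).trans (add_le_add ?_ ?_)) Finset.card_image_le))
    · simp
    · exact Finset.card_image_le.trans (by simp)
  rw [hS, ← ncard_eq_toFinset_card _ hD] at h2
  have l2 : 0 ≤ log (2 * x) := log_nonneg (by linarith)
  have l3 : 0 ≤ log (3 * x) := log_nonneg (by linarith)
  have h3 : (N : ℝ) ≤ log (2 * x) / log α + 1 := by
    rw [hN]; push_cast; linarith [Nat.floor_le (div_nonneg l2 ha.le)]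
  have h4 : (M : ℝ) ≤ log (3 * x) / log β + 1 := by
    rw [hM]; push_cast; linarith [Nat.floor_le (div_nonneg l3 hb.le)]
  have h5 : (N' : ℝ) ≤ 2 / log α * (log x + C) + 1 := by
    rw [hN']; push_cast
    linarith [Nat.floor_le (show 0 ≤ 2 / log α * (log x + C) by positivity)]
  have h6 : (K : ℝ) ≤ 2 / log β + 1 := by
    rw [hK]; push_cast; linarith [Nat.floor_le (show 0 ≤ 2 / log β by positivity)]
  have h2' : ((T α β x).ncard : ℝ) ≤ N * M + N' * K + (D α β x).ncard := by
    exact_mod_cast h2
  refine h2'.trans ?_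
  gcongr

theorem formula : ∃ C : ℝ, ∀ᶠ x in atTop, ((T α β x).Finite ↔ (D α β x).Finite) ∧
    ((T α β x).Finite → |((T α β x).ncard : ℝ) - (D α β x).ncard - log x ^ 2 / (log α * log β)|
      ≤ C * log x) := by
  have ha := log_pos hα
  have hb := log_pos hβ
  by_cases hi : Irrational (log α / log β)
  swap
  · refine ⟨0, (eventually_ge_atTop 0).mono fun x hx => ?_⟩
    have h := T_infinite_of_rat hα hβ hi hx
    exact ⟨iff_of_false h (D_infinite_of_rat hα hβ hi hx), fun k => absurd k h⟩
  by_cases hJ : (J α β 1).Finite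
  swap
  · refine ⟨0, (eventually_ge_atTop (1 * (β * log β))).mono fun x hx => ?_⟩
    have h : ¬ (D α β x).Finite := fun k => hJ (k.subset fun j hj =>
      (mem_D hα hβ hi).2 (T_mono hx (conv_mem hα hβ hi hj)))
    have h' : ¬ (T α β x).Finite := fun k => h (D_finite hα hβ hi k)
    exact ⟨iff_of_false h' h, fun k => absurd k h'⟩
  obtain ⟨C, hC0, hC⟩ := upperD hα hβ hi hJ
  set A : ℝ := (log 2 / log α + 1) / log β + (log 3 / log β + 1) / log α
    + 2 / log α * (2 / log β + 1) with hA
  set B : ℝ := (log 2 / log α + 1) * (log 3 / log β + 1)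
    + (2 / log α * C + 1) * (2 / log β + 1) with hB
  refine ⟨A + B + (1 / log α + 1), ?_⟩
  filter_upwards [eventually_ge_atTop 1, tendsto_log_atTop.eventually_ge_atTop 1] with x hx hL
  refine ⟨⟨D_finite hα hβ hi, fun h => (hC x hx h).1⟩, fun hT => ?_⟩
  have hu := (hC x hx (D_finite hα hβ hi hT)).2
  have hl := lowerD hα hβ hi hx hT
  rw [log_mul (by norm_num) (by linarith), log_mul (by norm_num) (by linarith)] at hu
  have e1 : (((log 2 + log x) / log α + 1) * ((log 3 + log x) / log β + 1)
      + (2 / log α * (log x + C) + 1) * (2 / log β + 1))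
      = log x ^ 2 / (log α * log β) + (A * log x + B) := by
    rw [hA, hB]; field_simp; ring
  rw [e1] at hu
  have l2 : 0 < log 2 := log_pos (by norm_num)
  have l3 : 0 < log 3 := log_pos (by norm_num)
  have e2 : 0 ≤ A * log x := by positivity
  have e3 : 0 ≤ B := by positivity
  have e4 : log x / log α = 1 / log α * log x := by ring
  have e5 : 0 ≤ 1 / log α * log x := by positivity
  have e6 : B ≤ B * log x := le_mul_of_one_le_right e3 hL
  refine abs_le.2 ⟨?_, ?_⟩ <;> nlinarith

/-- the same in one clause, with counts in `ℕ∞` -/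
theorem formulaE : ∃ C : ℝ, ∀ᶠ x in atTop, ∃ k : ℕ,
    (T α β x).encard = (D α β x).encard + k ∧
      |(k : ℝ) - log x ^ 2 / (log α * log β)| ≤ C * log x := by
  obtain ⟨C, hC⟩ := formula hα hβ
  have hab : 0 < log α * log β := mul_pos (log_pos hα) (log_pos hβ)
  refine ⟨max C 1, ?_⟩
  filter_upwards [hC, tendsto_log_atTop.eventually_ge_atTop 1,
    tendsto_log_atTop.eventually_ge_atTop (C * (log α * log β))] with x hx h1 h2
  by_cases hT : (T α β x).Finite
  · have h := hx.2 hT
    have h3 : C * log x ≤ log x ^ 2 / (log α * log β) := by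
      rw [le_div_iff₀ hab]
      nlinarith
    have h4 : (D α β x).ncard ≤ (T α β x).ncard := by
      have : ((D α β x).ncard : ℝ) ≤ (T α β x).ncard := by linarith [(abs_le.1 h).1]
      exact_mod_cast this
    refine ⟨(T α β x).ncard - (D α β x).ncard, ?_, ?_⟩
    · rw [← hT.cast_ncard_eq, ← (hx.1.1 hT).cast_ncard_eq, ← Nat.cast_add, Nat.add_sub_cancel' h4]
    · rw [Nat.cast_sub h4]
      exact h.trans (mul_le_mul_of_nonneg_right (le_max_left _ _) (by linarith))
  · refine ⟨⌊log x ^ 2 / (log α * log β)⌋₊, ?_, ?_⟩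
    · rw [Infinite.encard_eq hT, Infinite.encard_eq fun h => hT (hx.1.2 h), top_add]
    · have h3 := Nat.floor_le (show 0 ≤ log x ^ 2 / (log α * log β) by positivity)
      have h4 := Nat.lt_floor_add_one (log x ^ 2 / (log α * log β))
      have h5 : 1 * 1 ≤ max C 1 * log x := by gcongr; exact le_max_right _ _
      exact abs_le.2 ⟨by linarith, by linarith⟩

end Pool.Agent.Lib.MP_606be1_nt.FM
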